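import Mathlib

set_option autoImplicit false

namespace Pool.Agent.Results.MP_d31171_co.CubeFour

/-- A symmetric chain of the `n`-cube: a family of subsets of an `n`-element set, totally ordered by
inclusion, whose sizes form exactly the interval of integers from `a` to `b`, where `a ≤ b` and
`a + b = n`. -/
def IsSymChain (n : ℕ) (C : Finset (Finset (Fin n))) : Prop :=
  (∀ A ∈ C, ∀ B ∈ C, A ⊆ B ∨ B ⊆ A) ∧
    ∃ a b : ℕ, a ≤ b ∧ a + b = n ∧ C.image Finset.card = Finset.Icc a b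

/-- A symmetric chain decomposition of the `n`-cube: a family of symmetric chains such that every
subset lies in exactly one of them. -/
def IsSCD (n : ℕ) (D : Finset (Finset (Finset (Fin n)))) : Prop :=
  (∀ C ∈ D, IsSymChain n C) ∧ ∀ A : Finset (Fin n), ∃! C, C ∈ D ∧ A ∈ C

/-- Two symmetric chain decompositions are almost orthogonal if any two of their chains share at
most one member, except that the two maximal chains (those containing both the empty set and the
full set) may share these two sets and nothing else. -/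
def AlmostOrthogonal (n : ℕ) (D E : Finset (Finset (Finset (Fin n)))) : Prop :=
  ∀ C ∈ D, ∀ C' ∈ E, (C ∩ C').card ≤ 1 ∨
    ((∅ ∈ C ∧ Finset.univ ∈ C) ∧ (∅ ∈ C' ∧ Finset.univ ∈ C') ∧ C ∩ C' ⊆ {∅, Finset.univ})

/-- binary code of a subset -/
def mask (A : Finset (Fin 4)) : ℕ := (if 0 ∈ A then 1 else 0) + (if 1 ∈ A then 2 else 0) +
  (if 2 ∈ A then 4 else 0) + (if 3 ∈ A then 8 else 0)

/-- the possible codes of the pair and the triple above a singleton -/
def opts (i : Fin 4) : List (ℕ × ℕ) :=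
  match i with
  | 0 => [(3, 7), (3, 11), (5, 7), (5, 13), (9, 11), (9, 13)]
  | 1 => [(3, 7), (3, 11), (6, 7), (6, 14), (10, 11), (10, 14)]
  | 2 => [(5, 7), (5, 13), (6, 7), (6, 14), (12, 13), (12, 14)]
  | 3 => [(9, 11), (9, 13), (10, 11), (10, 14), (12, 13), (12, 14)]

theorem mask_inj : ∀ A B : Finset (Fin 4), mask A = mask B → A = B := by decide +kernel

theorem opt_mem : ∀ (i : Fin 4) (P T : Finset (Fin 4)), {i} ⊆ P → P ⊆ T → P.card = 2 →
    T.card = 3 → (mask P, mask T) ∈ opts i := by decide +kernel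

/-- the sixty possible configurations of the middle part -/
def L : List (List ℕ) :=
  [[3, 6, 5, 9, 7, 14, 13, 11], [3, 6, 5, 10, 7, 14, 13, 11], [3, 6, 12, 9, 7, 14, 13, 11], [3, 6,
    12, 10, 7, 14, 13, 11], [3, 10, 5, 12, 7, 11, 13, 14], [3, 10, 6, 9, 7, 11, 14, 13], [3, 10,
    6, 12, 7, 11, 14, 13], [3, 10, 12, 9, 7, 11, 14, 13], [3, 10, 5, 9, 7, 14, 13, 11], [3, 10,
    12, 9, 7, 14, 13, 11], [3, 6, 5, 10, 11, 7, 13, 14], [3, 6, 5, 12, 11, 7, 13, 14], [3, 6,
    12, 10, 11, 7, 13, 14], [3, 6, 12, 9, 11, 7, 14, 13], [3, 6, 5, 9, 11, 14, 7, 13], [3, 6, 5,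
    12, 11, 14, 7, 13], [3, 10, 5, 9, 11, 14, 7, 13], [3, 10, 5, 12, 11, 14, 7, 13], [3, 10, 6,
    9, 11, 14, 7, 13], [3, 10, 6, 12, 11, 14, 7, 13], [5, 3, 6, 9, 7, 11, 14, 13], [5, 3, 6, 12,
    7, 11, 14, 13], [5, 3, 12, 10, 7, 11, 13, 14], [5, 3, 12, 9, 7, 11, 14, 13], [5, 6, 12, 9,
    7, 14, 13, 11], [5, 6, 12, 10, 7, 14, 13, 11], [5, 10, 6, 9, 7, 11, 14, 13], [5, 10, 6, 12,
    7, 11, 14, 13], [5, 10, 12, 9, 7, 11, 14, 13], [5, 10, 12, 9, 7, 14, 13, 11], [5, 3, 6, 9,
    13, 7, 14, 11], [5, 3, 6, 10, 13, 7, 14, 11], [5, 3, 12, 9, 13, 7, 14, 11], [5, 3, 12, 10,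
    13, 7, 14, 11], [5, 3, 6, 10, 13, 11, 7, 14], [5, 3, 6, 12, 13, 11, 7, 14], [5, 6, 12, 9,
    13, 7, 14, 11], [5, 6, 12, 10, 13, 7, 14, 11], [5, 10, 6, 12, 13, 11, 7, 14], [5, 10, 6, 9,
    13, 14, 7, 11], [9, 3, 5, 10, 11, 7, 13, 14], [9, 3, 5, 12, 11, 7, 13, 14], [9, 3, 6, 12,
    11, 7, 14, 13], [9, 3, 12, 10, 11, 7, 13, 14], [9, 6, 5, 10, 11, 7, 13, 14], [9, 6, 5, 12,
    11, 7, 13, 14], [9, 6, 12, 10, 11, 7, 13, 14], [9, 6, 5, 12, 11, 14, 7, 13], [9, 10, 5, 12,
    11, 14, 7, 13], [9, 10, 6, 12, 11, 14, 7, 13], [9, 3, 6, 10, 13, 7, 14, 11], [9, 3, 12, 10,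
    13, 7, 14, 11], [9, 3, 5, 10, 13, 11, 7, 14], [9, 3, 5, 12, 13, 11, 7, 14], [9, 3, 6, 10,
    13, 11, 7, 14], [9, 3, 6, 12, 13, 11, 7, 14], [9, 6, 12, 10, 13, 7, 14, 11], [9, 6, 5, 10,
    13, 14, 7, 11], [9, 10, 5, 12, 13, 11, 7, 14], [9, 10, 6, 12, 13, 11, 7, 14]]

theorem enum : ∀ x0 ∈ opts 0, ∀ x1 ∈ opts 1, ∀ x2 ∈ opts 2, ∀ x3 ∈ opts 3,
    [x0.1, x1.1, x2.1, x3.1].Nodup → [x0.2, x1.2, x2.2, x3.2].Nodup →
    [x0.1, x1.1, x2.1, x3.1, x0.2, x1.2, x2.2, x3.2] ∈ L := by decide +kernel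

/-- compatibility of two configurations -/
def compat (a b : List ℕ) : Bool :=
  (List.range 8).all (fun i => a.getD i 0 != b.getD i 0) &&
  (List.range 4).all (fun i => (List.range 4).all (fun j =>
    a.getD (4 + i) 0 != b.getD (4 + j) 0 || a.getD i 0 != b.getD j 0))

theorem no_triple : ∀ a ∈ L, ∀ b ∈ L, compat a b = true → ∀ c ∈ L,
    compat a c = true → compat b c = true → False := by decide +kernel

/-- the chain of `D` through `A` -/
theorem chain_unique {D : Finset (Finset (Finset (Fin 4)))} (h : IsSCD 4 D)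
    {C C' : Finset (Finset (Fin 4))} {A : Finset (Fin 4)} (hC : C ∈ D) (hC' : C' ∈ D)
    (hA : A ∈ C) (hA' : A ∈ C') : C = C' :=
  (h.2 A).unique ⟨hC, hA⟩ ⟨hC', hA'⟩

theorem sub_of_card {D : Finset (Finset (Finset (Fin 4)))} (h : IsSCD 4 D)
    {C : Finset (Finset (Fin 4))} {A B : Finset (Fin 4)} (hC : C ∈ D)
    (hA : A ∈ C) (hB : B ∈ C) (hc : A.card < B.card) : A ⊆ B := by
  rcases (h.1 C hC).1 A hA B hB with h1 | h1
  · exact h1
  · exact absurd (Finset.card_le_card h1) (by omega)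

theorem eq_of_card {D : Finset (Finset (Finset (Fin 4)))} (h : IsSCD 4 D)
    {C : Finset (Finset (Fin 4))} {A B : Finset (Fin 4)} (hC : C ∈ D)
    (hA : A ∈ C) (hB : B ∈ C) (hc : A.card = B.card) : A = B := by
  rcases (h.1 C hC).1 A hA B hB with h1 | h1
  · exact Finset.eq_of_subset_of_card_le h1 hc.ge
  · exact (Finset.eq_of_subset_of_card_le h1 hc.le).symm

theorem exists_middle {D : Finset (Finset (Finset (Fin 4)))} (h : IsSCD 4 D) (i : Fin 4) :
    ∃ C ∈ D, ∃ P ∈ C, ∃ T ∈ C, {i} ∈ C ∧ {i} ⊆ P ∧ P ⊆ T ∧ P.card = 2 ∧ T.card = 3 := by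
  obtain ⟨C, ⟨hC, hi⟩, -⟩ := h.2 {i}
  obtain ⟨-, a, b, hab, hs, him⟩ := h.1 C hC
  have h1 : 1 ∈ Finset.Icc a b := by
    rw [← him]; exact Finset.mem_image.2 ⟨{i}, hi, Finset.card_singleton i⟩
  rw [Finset.mem_Icc] at h1
  have h2 : 2 ∈ C.image Finset.card := by rw [him, Finset.mem_Icc]; omega
  have h3 : 3 ∈ C.image Finset.card := by rw [him, Finset.mem_Icc]; omega
  obtain ⟨P, hP, hP2⟩ := Finset.mem_image.1 h2
  obtain ⟨T, hT, hT3⟩ := Finset.mem_image.1 h3
  exact ⟨C, hC, P, hP, T, hT, hi, sub_of_card h hC hi hP (by simp [hP2]),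
    sub_of_card h hC hP hT (by omega), hP2, hT3⟩

/-- No three pairwise almost orthogonal decompositions of the 4-cube. -/
theorem four (F : Fin 3 → Finset (Finset (Finset (Fin 4)))) (hF : ∀ s, IsSCD 4 (F s))
    (hO : ∀ s t, s ≠ t → AlmostOrthogonal 4 (F s) (F t)) : False := by
  choose C hC P hP T hT hi hiP hPT hP2 hT3 using fun s i => exists_middle (hF s) i
  have hinj : ∀ s i j, C s i = C s j → i = j := by
    intro s i j hij
    have h1 : ({j} : Finset (Fin 4)) ∈ C s i := hij ▸ hi s j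
    have := eq_of_card (hF s) (hC s i) (hi s i) h1 (by simp)
    simpa using this
  have hPinj : ∀ s i j, i ≠ j → mask (P s i) ≠ mask (P s j) := by
    intro s i j hij h
    have h1 := mask_inj _ _ h
    exact hij (hinj s i j (chain_unique (hF s) (hC s i) (hC s j) (hP s i) (h1 ▸ hP s j)))
  have hTinj : ∀ s i j, i ≠ j → mask (T s i) ≠ mask (T s j) := by
    intro s i j hij h
    have h1 := mask_inj _ _ h
    exact hij (hinj s i j (chain_unique (hF s) (hC s i) (hC s j) (hT s i) (h1 ▸ hT s j)))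
  have hL : ∀ s, [mask (P s 0), mask (P s 1), mask (P s 2), mask (P s 3),
      mask (T s 0), mask (T s 1), mask (T s 2), mask (T s 3)] ∈ L := by
    intro s
    have h0 := opt_mem 0 _ _ (hiP s 0) (hPT s 0) (hP2 s 0) (hT3 s 0)
    have h1 := opt_mem 1 _ _ (hiP s 1) (hPT s 1) (hP2 s 1) (hT3 s 1)
    have h2 := opt_mem 2 _ _ (hiP s 2) (hPT s 2) (hP2 s 2) (hT3 s 2)
    have h3 := opt_mem 3 _ _ (hiP s 3) (hPT s 3) (hP2 s 3) (hT3 s 3)
    refine enum _ h0 _ h1 _ h2 _ h3 ?_ ?_
    · simp only [List.nodup_cons, List.mem_cons, List.not_mem_nil, or_false, not_or,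
        not_false_eq_true, List.nodup_nil, and_true]
      exact ⟨⟨hPinj s 0 1 (by decide), hPinj s 0 2 (by decide), hPinj s 0 3 (by decide)⟩,
        ⟨hPinj s 1 2 (by decide), hPinj s 1 3 (by decide)⟩, hPinj s 2 3 (by decide)⟩
    · simp only [List.nodup_cons, List.mem_cons, List.not_mem_nil, or_false, not_or,
        not_false_eq_true, List.nodup_nil, and_true]
      exact ⟨⟨hTinj s 0 1 (by decide), hTinj s 0 2 (by decide), hTinj s 0 3 (by decide)⟩,
        ⟨hTinj s 1 2 (by decide), hTinj s 1 3 (by decide)⟩, hTinj s 2 3 (by decide)⟩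
  have hshare : ∀ s t, s ≠ t → ∀ A B : Finset (Fin 4), ∀ c ∈ F s, ∀ c' ∈ F t, A ∈ c → B ∈ c →
      A ∈ c' → B ∈ c' → A ≠ B → A ≠ ∅ → A ≠ Finset.univ → False := by
    intro s t hst A B c hc c' hc' h1 h2 h3 h4 hAB hA0 hA1
    rcases hO s t hst c hc c' hc' with h | ⟨-, -, h⟩
    · have : 1 < (c ∩ c').card := Finset.one_lt_card.2
        ⟨A, Finset.mem_inter.2 ⟨h1, h3⟩, B, Finset.mem_inter.2 ⟨h2, h4⟩, hAB⟩
      omega
    · have := h (Finset.mem_inter.2 ⟨h1, h3⟩)
      rw [Finset.mem_insert, Finset.mem_singleton] at this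
      exact this.elim hA0 hA1
  have ne_of_card : ∀ A B : Finset (Fin 4), A.card ≠ B.card → A ≠ B := by
    intro A B h1 h2; exact h1 (by rw [h2])
  have hc : ∀ s t, s ≠ t → compat
      [mask (P s 0), mask (P s 1), mask (P s 2), mask (P s 3),
        mask (T s 0), mask (T s 1), mask (T s 2), mask (T s 3)]
      [mask (P t 0), mask (P t 1), mask (P t 2), mask (P t 3),
        mask (T t 0), mask (T t 1), mask (T t 2), mask (T t 3)] = true := by
    intro s t hst
    have e1 : ∀ i, mask (P s i) ≠ mask (P t i) := by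
      intro i h
      have h1 := mask_inj _ _ h
      refine hshare s t hst {i} (P s i) _ (hC s i) _ (hC t i) (hi s i) (hP s i) (hi t i)
        (h1 ▸ hP t i) (ne_of_card _ _ ?_) (ne_of_card _ _ ?_) (ne_of_card _ _ ?_)
      · simp [hP2]
      · simp
      · simp
    have e2 : ∀ i, mask (T s i) ≠ mask (T t i) := by
      intro i h
      have h1 := mask_inj _ _ h
      refine hshare s t hst {i} (T s i) _ (hC s i) _ (hC t i) (hi s i) (hT s i) (hi t i)
        (h1 ▸ hT t i) (ne_of_card _ _ ?_) (ne_of_card _ _ ?_) (ne_of_card _ _ ?_)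
      · simp [hT3]
      · simp
      · simp
    have e3 : ∀ i j, mask (T s i) ≠ mask (T t j) ∨ mask (P s i) ≠ mask (P t j) := by
      intro i j
      by_contra hcon
      push Not at hcon
      obtain ⟨h1, h2⟩ := hcon
      have h1 := mask_inj _ _ h1
      have h2 := mask_inj _ _ h2
      refine hshare s t hst (P s i) (T s i) _ (hC s i) _ (hC t j) (hP s i) (hT s i)
        (h2 ▸ hP t j) (h1 ▸ hT t j) (ne_of_card _ _ ?_) (ne_of_card _ _ ?_) (ne_of_card _ _ ?_)
      · simp [hT3, hP2]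
      · simp [hP2]
      · simp [hP2]
    simp only [compat, Bool.and_eq_true, List.all_eq_true, List.mem_range, bne_iff_ne, ne_eq,
      Bool.or_eq_true]
    constructor
    · intro i hi8
      interval_cases i
      · exact e1 0
      · exact e1 1
      · exact e1 2
      · exact e1 3
      · exact e2 0
      · exact e2 1
      · exact e2 2
      · exact e2 3
    · intro i hi4 j hj4
      interval_cases i <;> interval_cases j
      · exact e3 0 0
      · exact e3 0 1
      · exact e3 0 2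
      · exact e3 0 3
      · exact e3 1 0
      · exact e3 1 1
      · exact e3 1 2
      · exact e3 1 3
      · exact e3 2 0
      · exact e3 2 1
      · exact e3 2 2
      · exact e3 2 3
      · exact e3 3 0
      · exact e3 3 1
      · exact e3 3 2
      · exact e3 3 3
  exact no_triple _ (hL 0) _ (hL 1) (hc 0 1 (by decide)) _ (hL 2) (hc 0 2 (by decide))
    (hc 1 2 (by decide))

/-- Sanity check of the definitions: the 2-cube does have two almost orthogonal decompositions. -/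
theorem two : ∃ F : Fin (2 / 2 + 1) → Finset (Finset (Finset (Fin 2))),
    (∀ s, IsSCD 2 (F s)) ∧ ∀ s t, s ≠ t → AlmostOrthogonal 2 (F s) (F t) := by
  refine ⟨![{{∅, {0}, Finset.univ}, {{1}}}, {{∅, {1}, Finset.univ}, {{0}}}], ?_, ?_⟩
  · intro s
    fin_cases s
    · refine ⟨?_, ?_⟩
      · intro C hC
        have hC' : C = {∅, {0}, Finset.univ} ∨ C = {{1}} := by
          simpa using hC
        rcases hC' with rfl | rfl
        · exact ⟨by decide, 0, 2, by decide, by decide, by decide⟩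
        · exact ⟨by decide, 1, 1, by decide, by decide, by decide⟩
      · simp only [ExistsUnique]; decide +kernel
    · refine ⟨?_, ?_⟩
      · intro C hC
        have hC' : C = {∅, {1}, Finset.univ} ∨ C = {{0}} := by
          simpa using hC
        rcases hC' with rfl | rfl
        · exact ⟨by decide, 0, 2, by decide, by decide, by decide⟩
        · exact ⟨by decide, 1, 1, by decide, by decide, by decide⟩
      · simp only [ExistsUnique]; decide +kernel
  · intro s t hst
    unfold AlmostOrthogonal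
    fin_cases s <;> fin_cases t
    · exact absurd rfl hst
    · decide +kernel
    · decide +kernel
    · exact absurd rfl hst

/-- It is not true that for every `n` the `n`-cube admits `⌊n/2⌋ + 1` pairwise almost orthogonal
symmetric chain decompositions: there is no such family for `n = 4`. -/
theorem result :
    ∃ n : ℕ, ¬ ∃ F : Fin (n / 2 + 1) → Finset (Finset (Finset (Fin n))),
      (∀ s, IsSCD n (F s)) ∧ ∀ s t, s ≠ t → AlmostOrthogonal n (F s) (F t) := by
  refine ⟨4, ?_⟩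
  rintro ⟨F, hF, hO⟩
  exact four F hF hO

end Pool.Agent.Results.MP_d31171_co.CubeFour
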